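import Pool.Agent.N600.G3.Stm

/-!
# Crossed homomorphisms on two products (project G3, tasks PRD and TRI)
-/

set_option autoImplicit false

namespace Pool.Agent.N693.G3

open Pool.Agent.N600.G3

universe u

lemma crossed_one {M F : Type*} [Group M] [Field F] {χ : M →* Fˣ} {b : M → F}
    (h : Crossed χ b) : b 1 = 0 := by
  have := h 1 1
  simpa using this

lemma crossed_inv {M F : Type*} [Group M] [Field F] {χ : M →* Fˣ} {b : M → F}
    (h : Crossed χ b) (m : M) : (χ m : F) * b m⁻¹ = - b m := by
  have h1 := h m m⁻¹
  rw [mul_inv_cancel, crossed_one h] at h1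
  linear_combination -h1

lemma crossed_conj {M F : Type*} [Group M] [Field F] {χ : M →* Fˣ} {b : M → F}
    (h : Crossed χ b) {U : M} (hU : b U = 0) (A : M) :
    b (A * U * A⁻¹) = (1 - (χ U : F)) * b A := by
  have h2 := crossed_inv h A
  rw [h (A * U) A⁻¹, h A U, hU, map_mul, Units.val_mul]
  linear_combination (χ U : F) * h2

lemma char_conj {M F : Type*} [Group M] [Field F] (χ : M →* Fˣ) (U A : M) :
    χ (A * U * A⁻¹) = χ U := by
  rw [map_mul, map_mul, map_inv]
  rw [mul_comm (χ A), mul_assoc, mul_inv_cancel, mul_one]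

theorem t_prd : S_PRD.{u} := by
  intro M _ F _ χ b h U hU R
  induction R with
  | zero =>
    intro A
    simp [crossed_one h]
  | succ R ih =>
    intro A
    rw [List.ofFn_succ, List.prod_cons, h, crossed_conj h hU, char_conj,
      ih (fun r => A r.succ), Fin.sum_univ_succ]
    simp only [Fin.val_zero, pow_zero, one_mul, Fin.val_succ, pow_succ']
    simp only [mul_assoc]
    rw [← Finset.mul_sum]
    ring

lemma AA_succ {M : Type*} [Group M] {K : ℕ} (d : Fin (K + 1) → M) (x : Fin (K + 1) → Bool) :
    AA d x = (if x 0 then d 0 else 1) * AA (fun j => d j.succ) (fun j => x j.succ) := by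
  unfold AA
  rw [List.ofFn_succ, List.prod_cons]

lemma crossed_AA_zero {M F : Type*} [Group M] [Field F] {χ : M →* Fˣ} {b : M → F}
    (h : Crossed χ b) {K : ℕ} (d : Fin K → M) (hd : ∀ j, b (d j) = 0) (x : Fin K → Bool) :
    b (AA d x) = 0 := by
  induction K with
  | zero => simp [AA, crossed_one h]
  | succ K ih =>
    rw [AA_succ, h, ih _ (fun j => hd j.succ), mul_zero, add_zero]
    split_ifs
    · exact hd 0
    · exact crossed_one h

theorem t_tri : S_TRI.{u} := by
  intro M _ F _ χ b h K
  induction K with
  | zero =>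
    intro d k
    exact k.elim0
  | succ K ih =>
    intro d k
    refine Fin.cases ?_ (fun j => ?_) k
    · intro hd
      refine ⟨fun _ => 0, fun _ => 1, fun x x' _ => ⟨rfl, rfl⟩, fun x => ?_⟩
      rw [AA_succ, h, crossed_AA_zero h _ (fun j => hd j.succ (Fin.succ_pos j))]
      simp only [mul_zero, add_zero, Units.val_one, one_mul, zero_add]
      split_ifs
      · rfl
      · exact crossed_one h
    · intro hd
      obtain ⟨g, σ, h1, h2⟩ := ih (fun i => d i.succ) j
        (fun i hi => hd i.succ (Fin.succ_lt_succ_iff.2 hi))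
      refine ⟨fun x => b (if x 0 then d 0 else 1) +
          (χ (if x 0 then d 0 else 1) : F) * g (fun i => x i.succ),
        fun x => χ (if x 0 then d 0 else 1) * σ (fun i => x i.succ), fun x x' hx => ?_,
        fun x => ?_⟩
      · have h0 : x 0 = x' 0 := hx 0 (Fin.succ_pos j)
        have h3 := h1 (fun i => x i.succ) (fun i => x' i.succ)
          (fun i hi => hx i.succ (Fin.succ_lt_succ_iff.2 hi))
        simp only [h0, h3.1, h3.2, and_self]
      · rw [AA_succ, h, h2]
        simp only [Units.val_mul]
        ring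

end Pool.Agent.N693.G3
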